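import Pool.Agent.Q234.BS.Main

/-!
# A beam-splitter state of Fock-bounded pure states that is not extreme

With `ψ = (√2 |2⟩ - |0⟩)/√3` and `φ = |0⟩` the beam-splitter state `σ(ψ, φ)` is the midpoint of two
distinct Wigner-positive states. All states involved are supported on the span of `|0⟩, |1⟩, |2⟩`,
so density operators are represented by their matrices in the Fock basis.

The definitions are in `Pool.Agent.Q234.BS.Defs`.
-/

namespace Pool.Agent.Results.MP_bdb089_mp.BeamSplitterNotExtreme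

open Pool.Agent.Q234.BS

theorem result : ∃ ψ φ : ℕ → ℂ, IsFockBoundedUnit ψ ∧ IsFockBoundedUnit φ ∧
    IsWignerPositiveState (bsState ψ φ) ∧
    ∃ ρ₁ ρ₂ : ℕ → ℕ → ℂ, IsWignerPositiveState ρ₁ ∧ IsWignerPositiveState ρ₂ ∧ ρ₁ ≠ ρ₂ ∧
      ∀ k k' : ℕ, bsState ψ φ k k' = 1 / 2 * ρ₁ k k' + 1 / 2 * ρ₂ k k' := by
  have key : ∀ e : ℝ, -1 / 20 ≤ e → e ≤ 1 / 20 → IsWignerPositiveState (st e) := by
    intro e h1 h2
    refine ⟨3, fun m n h => st_zero e m n h, fun v => st_pos e h1 h2 v, ?_, fun x p => ?_⟩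
    · simp only [Finset.sum_range_succ, Finset.sum_range_zero, st]
      push_cast
      ring
    · rw [wigner_st]
      have c1 : 0 ≤ 1 / 3 + e := by linarith
      have c2 : 0 ≤ 4 / 3 - 2 * e := by linarith
      have : (0 : ℝ) ≤ 1 / Real.pi * Real.exp (-(x ^ 2 + p ^ 2)) *
          ((1 / 3 + e) * (x ^ 2 + p ^ 2 - 1) ^ 2 + (4 / 3 - 2 * e) * p ^ 2) := by
        have := Real.pi_pos
        positivity
      exact Complex.zero_le_real.mpr this
  have hbs : bsState psi vac = st 0 := by
    funext k k'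
    exact bs_eq k k'
  refine ⟨psi, vac, psi_unit, vac_unit, ?_, st (1 / 20), st (-1 / 20), key _ (by norm_num)
    (by norm_num), key _ (by norm_num) (by norm_num), ?_, ?_⟩
  · rw [hbs]
    exact key 0 (by norm_num) (by norm_num)
  · intro h
    have h1 := congrFun (congrFun h 1) 1
    simp only [st] at h1
    have h2 := Complex.ofReal_injective h1
    norm_num at h2
  · intro k k'
    rw [hbs]
    rcases k with _ | _ | _ | k <;> rcases k' with _ | _ | _ | k' <;>
      simp only [st] <;> push_cast <;> ring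

end Pool.Agent.Results.MP_bdb089_mp.BeamSplitterNotExtreme
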